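import Mathlib
import Pool.Agent.H67.HF.Defs2
import Pool.Agent.H6.NiceFT

/-!
# MP_103a5c_HF: facts about the window `psi`
-/

open MeasureTheory Set Filter Topology FourierTransform
open scoped Real Interval SchwartzMap ContDiff

namespace Pool.Agent.H5.HF

open Pool.Agent.H6 Pool.Agent.H67.HF

theorem contDiff_sinc : ContDiff ℝ ∞ Real.sinc := by
  have h1 : Differentiable ℂ (dslope Complex.sin 0) := by
    have := (Complex.differentiableOn_dslope (s := univ) (c := 0) univ_mem).2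
      Complex.differentiable_sin.differentiableOn
    exact differentiableOn_univ.1 this
  have h2 : ContDiff ℂ ∞ (dslope Complex.sin 0) := h1.contDiff
  have h3 : ContDiff ℝ ∞ (fun x : ℝ => (dslope Complex.sin 0 (x : ℂ)).re) :=
    Complex.reCLM.contDiff.comp ((h2.restrict_scalars ℝ).comp Complex.ofRealCLM.contDiff)
  have h4 : Real.sinc = fun x : ℝ => (dslope Complex.sin 0 (x : ℂ)).re := by
    ext x
    rcases eq_or_ne x 0 with rfl | hx
    · rw [Real.sinc_zero, Complex.ofReal_zero, dslope_same, Complex.deriv_sin, Complex.cos_zero,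
        Complex.one_re]
    · have hx' : (x : ℂ) ≠ 0 := by exact_mod_cast hx
      rw [Real.sinc_of_ne_zero hx, dslope_of_ne _ hx', slope_def_field, Complex.sin_zero, sub_zero,
        sub_zero, ← Complex.ofReal_sin, ← Complex.ofReal_div, Complex.ofReal_re]
  rw [h4]
  exact h3

theorem nice_chi {χ : ℝ → ℝ} {D : ℝ} (hW : Win2 χ D) : Nice χ :=
  ⟨hW.smooth, hW.even, D, lt_of_lt_of_le one_pos hW.D_pos, hW.supp⟩

theorem nice_hd {χ : ℝ → ℝ} {D : ℝ} (hW : Win2 χ D) (δ : ℝ) : Nice (hd χ δ) := by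
  have h1 : ContDiff ℝ ∞ (fun u : ℝ => δ * Real.sinc (π * δ * u)) :=
    contDiff_const.mul (contDiff_sinc.comp (contDiff_const.mul contDiff_id))
  exact (nice_chi hW).mul h1 (fun u => by rw [mul_neg, Real.sinc_neg])

theorem hd_supp {χ : ℝ → ℝ} {D : ℝ} (hW : Win2 χ D) (δ : ℝ) (u : ℝ) (hu : D ≤ |u|) : hd χ δ u = 0 := by
  unfold hd
  rw [hW.supp u hu, zero_mul]

theorem testFn_psi {χ : ℝ → ℝ} {D : ℝ} (hW : Win2 χ D) (δ : ℝ) : TestFn D (psi χ δ) :=
  ((nice_hd hW δ).reg (hd_supp hW δ)).test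

theorem cosT_psi {χ : ℝ → ℝ} {D : ℝ} (hW : Win2 χ D) (δ : ℝ) : cosT (psi χ δ) = hd χ δ := by
  ext ξ
  exact (nice_hd hW δ).inv ξ

theorem hd_zero {χ : ℝ → ℝ} {D : ℝ} (hW : Win2 χ D) (δ : ℝ) : hd χ δ 0 = δ := by
  unfold hd
  rw [hW.zero, mul_zero, Real.sinc_zero]
  ring

/-- the cosine transform of a nice function decays fast -/
theorem nice_decay {g : ℝ → ℝ} (h : Nice g) : Continuous (cosT g) ∧
    ∃ C, 0 ≤ C ∧ ∀ x, |cosT g x| ≤ C / (1 + x ^ 2) ^ 3 := by
  have hc := h.hasCompactSupport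
  have hcC : HasCompactSupport (fun x => (g x : ℂ)) := hc.comp_left (g := fun x : ℝ => (x : ℂ)) (by simp)
  have hgC : ContDiff ℝ ∞ (fun x => (g x : ℂ)) := Complex.ofRealCLM.contDiff.comp h.smooth
  set f : 𝓢(ℝ, ℂ) := hcC.toSchwartzMap hgC with hf
  set Fs : 𝓢(ℝ, ℂ) := 𝓕 f with hFs
  have hval : ∀ u, Fs u = (cosT g u : ℂ) := by
    intro u
    rw [hFs, SchwartzMap.fourier_coe]
    have : (f : ℝ → ℂ) = fun x => (g x : ℂ) := rfl
    rw [this, fourier_ofReal_even h.integrable h.even]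
  obtain ⟨D0, hD00, hD0⟩ := Fs.decay 0 0
  obtain ⟨D6, hD60, hD6⟩ := Fs.decay 6 0
  constructor
  · have : cosT g = fun u => (Fs u).re := by
      ext u
      rw [hval, Complex.ofReal_re]
    rw [this]
    exact Complex.continuous_re.comp Fs.continuous
  · refine ⟨4 * (D0 + D6), by positivity, fun x => ?_⟩
    have h0 := hD0 x
    have h6 := hD6 x
    rw [pow_zero, one_mul, norm_iteratedFDeriv_zero, hval, Complex.norm_real, Real.norm_eq_abs] at h0
    rw [norm_iteratedFDeriv_zero, hval, Complex.norm_real, Real.norm_eq_abs, Real.norm_eq_abs] at h6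
    rw [le_div_iff₀ (by positivity)]
    have h7 : (1 + x ^ 2) ^ 3 ≤ 4 * (1 + |x| ^ 6) := by
      have e : |x| ^ 6 = (x ^ 2) ^ 3 := by
        rw [← sq_abs, ← pow_mul]
      rw [e]
      have := sq_nonneg x
      nlinarith [mul_nonneg (sq_nonneg (x ^ 2 - 1)) (by positivity : (0 : ℝ) ≤ 1 + x ^ 2)]
    calc |cosT g x| * (1 + x ^ 2) ^ 3 ≤ |cosT g x| * (4 * (1 + |x| ^ 6)) :=
          mul_le_mul_of_nonneg_left h7 (abs_nonneg _)
      _ = 4 * (|cosT g x| + |x| ^ 6 * |cosT g x|) := by ring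
      _ ≤ 4 * (D0 + D6) := by linarith

theorem sinc_int (δ u : ℝ) :
    δ * Real.sinc (π * δ * u) = ∫ y in (-(δ / 2))..(δ / 2), Real.cos (2 * π * u * y) := by
  rcases eq_or_ne u 0 with rfl | hu
  · simp
  rcases eq_or_ne δ 0 with rfl | hδ
  · simp
  have hpi := Real.pi_ne_zero
  have hc : 2 * π * u ≠ 0 := by positivity
  rw [intervalIntegral.integral_comp_mul_left (fun x => Real.cos x) hc, integral_cos,
    Real.sinc_of_ne_zero (by positivity)]
  have e1 : 2 * π * u * (δ / 2) = π * δ * u := by ring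
  have e2 : 2 * π * u * -(δ / 2) = -(π * δ * u) := by ring
  rw [e1, e2, Real.sin_neg, smul_eq_mul]
  field_simp
  ring

theorem psi_nonneg {χ : ℝ → ℝ} {D δ : ℝ} (hW : Win2 χ D) (hδ : 0 < δ) (x : ℝ) : 0 ≤ psi χ δ x := by
  have hχi := (nice_chi hW).integrable
  have hk := hW.pos
  set μ := (volume : Measure ℝ).restrict (Ioc (-(δ / 2)) (δ / 2)) with hμ
  have h1 : psi χ δ x = ∫ u, ∫ y, χ u * Real.cos (2 * π * u * x) * Real.cos (2 * π * u * y) ∂μ := by
    unfold psi cosT hd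
    refine integral_congr_ae (ae_of_all _ fun u => ?_)
    simp only
    rw [sinc_int, intervalIntegral.integral_of_le (by linarith), ← hμ, integral_const_mul]
    ring
  have hint : Integrable (Function.uncurry fun u y : ℝ =>
      χ u * Real.cos (2 * π * u * x) * Real.cos (2 * π * u * y)) (volume.prod μ) := by
    have h2 : Integrable (fun z : ℝ × ℝ => χ z.1 * (1 : ℝ)) (volume.prod μ) :=
      hχi.mul_prod (integrable_const (1 : ℝ))
    refine h2.mono' ?_ (ae_of_all _ fun z => ?_)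
    · have hχc := hW.smooth.continuous
      exact (by fun_prop : Continuous (Function.uncurry fun u y : ℝ =>
        χ u * Real.cos (2 * π * u * x) * Real.cos (2 * π * u * y))).aestronglyMeasurable
    · simp only [Function.uncurry]
      rw [Real.norm_eq_abs, abs_mul, abs_mul, abs_of_nonneg (hW.nonneg z.1)]
      have h3 := Real.abs_cos_le_one (2 * π * z.1 * x)
      have h4 := Real.abs_cos_le_one (2 * π * z.1 * z.2)
      have h5 := hW.nonneg z.1
      have h6 : χ z.1 * |Real.cos (2 * π * z.1 * x)| ≤ χ z.1 * 1 := mul_le_mul_of_nonneg_left h3 h5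
      calc _ ≤ (χ z.1 * 1) * 1 := mul_le_mul h6 h4 (abs_nonneg _) (by linarith)
        _ = _ := by ring
  rw [h1, integral_integral_swap hint]
  refine integral_nonneg fun y => ?_
  have h7 : ∫ u, χ u * Real.cos (2 * π * u * x) * Real.cos (2 * π * u * y) =
      (cosT χ (x + y) + cosT χ (x - y)) / 2 := by
    unfold cosT
    rw [← integral_add (integrable_mul_cos hχi _) (integrable_mul_cos hχi _), ← integral_div]
    refine integral_congr_ae (ae_of_all _ fun u => ?_)
    simp only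
    rw [mul_add, mul_sub, Real.cos_add, Real.cos_sub]
    ring
  simp only [Pi.zero_apply]
  rw [h7]
  have h8 := hk (x + y)
  have h9 := hk (x - y)
  linarith

theorem psi_facts {χ : ℝ → ℝ} {D δ : ℝ} (hW : Win2 χ D) (hδ : 0 < δ) :
    Continuous (psi χ δ) ∧ (∀ x, psi χ δ (-x) = psi χ δ x) ∧ (∀ x, 0 ≤ psi χ δ x) ∧
      ∃ C, 0 ≤ C ∧ ∀ x, psi χ δ x ≤ C / (1 + x ^ 2) ^ 3 := by
  obtain ⟨h1, C, hC0, hC⟩ := nice_decay (nice_hd hW δ)
  exact ⟨h1, cosT_neg _, psi_nonneg hW hδ, C, hC0, fun x => (le_abs_self _).trans (hC x)⟩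

end Pool.Agent.H5.HF
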