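import Mathlib
import Pool.Agent.H67.HF.Defs2

/-!
# MP_103a5c_HF: `Re V_n ≥ -C/n` on the strip
-/

open Set Filter Topology
open scoped Real ComplexConjugate

namespace Pool.Agent.H5.HF

open Pool.Agent.H67.HF

theorem norm_pow_sub_pow_le {x y : ℂ} {B : ℝ} (hx : ‖x‖ ≤ B) (hy : ‖y‖ ≤ B) (n : ℕ) :
    ‖x ^ (n + 1) - y ^ (n + 1)‖ ≤ (n + 1) * B ^ n * ‖x - y‖ := by
  have hB : 0 ≤ B := (norm_nonneg x).trans hx
  induction n with
  | zero => simp
  | succ n ih =>
    have e : x ^ (n + 1 + 1) - y ^ (n + 1 + 1) = x * (x ^ (n + 1) - y ^ (n + 1)) + (x - y) * y ^ (n + 1) := by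
      ring
    rw [e]
    refine (norm_add_le _ _).trans ?_
    rw [norm_mul, norm_mul, norm_pow]
    have h1 : ‖x‖ * ‖x ^ (n + 1) - y ^ (n + 1)‖ ≤ B * ((n + 1) * B ^ n * ‖x - y‖) :=
      mul_le_mul hx ih (norm_nonneg _) hB
    have h2 : ‖x - y‖ * ‖y‖ ^ (n + 1) ≤ ‖x - y‖ * B ^ (n + 1) :=
      mul_le_mul_of_nonneg_left (pow_le_pow_left₀ (norm_nonneg _) hy _) (norm_nonneg _)
    push_cast
    calc _ ≤ B * ((n + 1) * B ^ n * ‖x - y‖) + ‖x - y‖ * B ^ (n + 1) := add_le_add h1 h2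
      _ = _ := by ring

/-- `n q^n (1 - q) ≤ 1` -/
theorem mul_pow_le {q : ℝ} (h0 : 0 ≤ q) (h1 : q ≤ 1) (n : ℕ) : n * q ^ n * (1 - q) ≤ 1 := by
  have h2 : (n : ℝ) * q ^ n ≤ ∑ k ∈ Finset.range n, q ^ k := by
    have : ∑ k ∈ Finset.range n, q ^ n ≤ ∑ k ∈ Finset.range n, q ^ k :=
      Finset.sum_le_sum fun k hk => pow_le_pow_of_le_one h0 h1 (Finset.mem_range.1 hk).le
    rwa [Finset.sum_const, Finset.card_range, nsmul_eq_mul] at this
  have h3 : (∑ k ∈ Finset.range n, q ^ k) * (1 - q) = 1 - q ^ n := by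
    have := geom_sum_mul q n
    linarith
  calc n * q ^ n * (1 - q) ≤ (∑ k ∈ Finset.range n, q ^ k) * (1 - q) :=
        mul_le_mul_of_nonneg_right h2 (by linarith)
    _ = 1 - q ^ n := h3
    _ ≤ 1 := by linarith [pow_nonneg h0 n]

theorem cos_ge {y : ℝ} (hy : 0 ≤ y) : -(max (y - π / 2) 0) ≤ Real.cos y := by
  rcases le_or_gt y (π / 2) with h | h
  · have := Real.cos_nonneg_of_neg_pi_div_two_le_of_le (by linarith [Real.pi_pos]) h
    have h2 := le_max_right (y - π / 2) 0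
    linarith
  · have h1 : Real.cos y = -Real.sin (y - π / 2) := by
      rw [Real.sin_sub_pi_div_two, neg_neg]
    rw [h1, max_eq_left (by linarith)]
    have := Real.sin_le (x := y - π / 2) (by linarith)
    linarith

/-- the main case -/
theorem re_pow_ge {n : ℕ} (hn : 2 ≤ n) {a φ : ℝ} (ha : 0 ≤ a) (hφ : |φ| ≤ π / (2 * n)) :
    -(100 / (n : ℝ)) ≤ (((a : ℂ) + (φ : ℂ) * Complex.I) ^ n).re := by
  have hn0 : (0 : ℝ) < n := by positivity
  have hn2 : (2 : ℝ) ≤ n := by exact_mod_cast hn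
  set w : ℂ := (a : ℂ) + (φ : ℂ) * Complex.I with hw
  have hre : w.re = a := by simp [hw]
  have him : w.im = φ := by simp [hw]
  have hnorm : ‖w‖ ^ 2 = a ^ 2 + φ ^ 2 := by
    rw [← Complex.normSq_eq_norm_sq, Complex.normSq_apply, hre, him]
    ring
  have hpi := Real.pi_pos
  have hpi4 := Real.pi_lt_four
  have hpi32 : π < 3.15 := Real.pi_lt_d2
  have hφ2 : φ ^ 2 ≤ π ^ 2 / (4 * n ^ 2) := by
    have h1 : φ ^ 2 ≤ (π / (2 * n)) ^ 2 := by
      rw [← sq_abs φ]
      exact pow_le_pow_left₀ (abs_nonneg _) hφ 2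
    refine h1.trans (le_of_eq ?_)
    field_simp
    ring
  rcases lt_or_ge a (1 / 2) with ha2 | ha2
  · -- small modulus
    have h1 : ‖w‖ ^ 2 ≤ 0.8721 := by
      rw [hnorm]
      have h2 : π ^ 2 / (4 * n ^ 2) ≤ 0.6221 := by
        rw [div_le_iff₀ (by positivity)]
        nlinarith
      nlinarith
    have h3 : ‖w‖ ≤ 0.95 := by
      nlinarith [norm_nonneg w]
    have h4 := mul_pow_le (norm_nonneg w) (by linarith : ‖w‖ ≤ 1) n
    have h5 : ‖w‖ ^ n ≤ 100 / n := by
      rw [le_div_iff₀ hn0]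
      have h6 : 0 ≤ (n : ℝ) * ‖w‖ ^ n := by positivity
      nlinarith
    have h7 := (abs_le.1 (Complex.abs_re_le_norm (w ^ n))).1
    rw [norm_pow] at h7
    linarith
  · have ha0 : 0 < a := by linarith
    have hw0 : 0 < w.re := by rw [hre]; exact ha0
    have hpolar : w ^ n = ((‖w‖ ^ n : ℝ) : ℂ) * Complex.exp (((n * Complex.arg w : ℝ) : ℂ) * Complex.I) := by
      conv_lhs => rw [← Complex.norm_mul_exp_arg_mul_I w]
      rw [mul_pow, ← Complex.exp_nat_mul]
      push_cast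
      ring_nf
    rw [hpolar, Complex.re_ofReal_mul, Complex.exp_ofReal_mul_I_re]
    have harg : |Complex.arg w| ≤ |φ| / a := by
      have h1 : |Complex.arg w| < π / 2 := Complex.abs_arg_lt_pi_div_two_iff.2 (Or.inl hw0)
      have h2 : Real.tan |Complex.arg w| = |φ| / a := by
        have h3 := Complex.tan_arg w
        rw [hre, him] at h3
        rcases abs_cases (Complex.arg w) with ⟨h4, h5⟩ | ⟨h4, h5⟩
        · rw [h4, h3]
          have h6 : 0 ≤ w.im := Complex.arg_nonneg_iff.1 h5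
          rw [him] at h6
          rw [abs_of_nonneg h6]
        · rw [h4, Real.tan_neg, h3]
          have h6 : w.im < 0 := Complex.arg_neg_iff.1 h5
          rw [him] at h6
          rw [abs_of_neg h6, neg_div]
      rw [← h2]
      rcases eq_or_lt_of_le (abs_nonneg (Complex.arg w)) with h0 | h0
      · rw [← h0, Real.tan_zero]
      · exact (Real.lt_tan h0 h1).le
    have hcos : -(π / 2 * ((1 - a) / a) ⊔ 0) ≤ Real.cos (n * Complex.arg w) := by
      have h1 : Real.cos (n * Complex.arg w) = Real.cos (n * |Complex.arg w|) := by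
        rcases abs_cases (Complex.arg w) with ⟨h4, h5⟩ | ⟨h4, h5⟩
        · rw [h4]
        · rw [h4, mul_neg, Real.cos_neg]
      rw [h1]
      refine le_trans ?_ (cos_ge (by positivity))
      have h2 : n * |Complex.arg w| - π / 2 ≤ π / 2 * ((1 - a) / a) := by
        have h3 : n * |Complex.arg w| ≤ n * (π / (2 * n) / a) :=
          mul_le_mul_of_nonneg_left (harg.trans (div_le_div_of_nonneg_right hφ ha0.le)) hn0.le
        have h4 : n * (π / (2 * n) / a) = π / 2 + π / 2 * ((1 - a) / a) := by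
          field_simp
          ring
        linarith
      exact neg_le_neg (max_le_max h2 le_rfl)
    rcases le_or_gt 1 a with h1 | h1
    · have h2 : (π / 2 * ((1 - a) / a)) ⊔ 0 = 0 := by
        rw [max_eq_right]
        have : (1 - a) / a ≤ 0 := div_nonpos_of_nonpos_of_nonneg (by linarith) ha0.le
        nlinarith
      rw [h2, neg_zero] at hcos
      have h3 : 0 ≤ ‖w‖ ^ n * Real.cos (n * Complex.arg w) := by positivity
      have h4 : 0 ≤ 100 / (n : ℝ) := by positivity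
      linarith
    · -- a in [1/2, 1)
      have hr : 0 ≤ (1 - a) / a := div_nonneg (by linarith) ha0.le
      have h2 : (π / 2 * ((1 - a) / a)) ⊔ 0 = π / 2 * ((1 - a) / a) := max_eq_left (by positivity)
      rw [h2] at hcos
      have hwn : ‖w‖ ^ n ≤ 13 * a ^ n := by
        have h3 : ‖w‖ ^ 2 ≤ a ^ 2 * Real.exp (2 * (2.5 / n)) := by
          rw [hnorm]
          have h4 : φ ^ 2 ≤ a ^ 2 * (2 * (2.5 / n)) := by
            have h5 : π ^ 2 / (4 * n ^ 2) ≤ 1 / 4 * (2 * (2.5 / n)) := by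
              rw [div_le_iff₀ (by positivity)]
              have h6 : 1 / 4 * (2 * (2.5 / (n : ℝ))) * (4 * (n : ℝ) ^ 2) = 5 * n := by
                field_simp
                ring
              rw [h6]
              nlinarith
            have h7 : (1 / 4 : ℝ) ≤ a ^ 2 := by nlinarith
            have h8 : 0 ≤ 2 * (2.5 / (n : ℝ)) := by positivity
            nlinarith
          have h9 := Real.add_one_le_exp (2 * (2.5 / (n : ℝ)))
          nlinarith [sq_nonneg a]
        have h10 : ‖w‖ ≤ a * Real.exp (2.5 / n) := by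
          have h11 : ‖w‖ ^ 2 ≤ (a * Real.exp (2.5 / n)) ^ 2 := by
            rw [mul_pow, ← Real.exp_nat_mul]
            exact_mod_cast h3
          exact le_of_sq_le_sq h11 (by positivity)
        calc ‖w‖ ^ n ≤ (a * Real.exp (2.5 / n)) ^ n := pow_le_pow_left₀ (norm_nonneg _) h10 n
          _ = a ^ n * Real.exp 2.5 := by
              rw [mul_pow, ← Real.exp_nat_mul]
              congr 2
              field_simp
          _ ≤ a ^ n * 13 := by
              refine mul_le_mul_of_nonneg_left ?_ (by positivity)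
              have h12 : Real.exp 2.5 = Real.exp 1 * Real.exp 1 * Real.exp (1 / 2) := by
                rw [← Real.exp_add, ← Real.exp_add]
                norm_num
              have h13 := Real.exp_one_lt_d9
              have h14 : Real.exp (1 / 2) ^ 2 = Real.exp 1 := by
                rw [← Real.exp_nat_mul]
                norm_num
              have h15 : Real.exp (1 / 2) ≤ 1.65 := by
                nlinarith [Real.exp_pos (1 / 2)]
              rw [h12]
              have h16 := Real.exp_pos 1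
              have h17 : Real.exp 1 * Real.exp 1 ≤ 7.4 := by nlinarith
              have h18 := Real.exp_pos (1 / 2)
              nlinarith
          _ = _ := by ring
      have h20 := mul_pow_le ha0.le h1.le n
      have h21 : a ^ n * ((1 - a) / a) ≤ 2 / n := by
        rw [le_div_iff₀ hn0, mul_div_assoc', div_mul_eq_mul_div, div_le_iff₀ ha0]
        nlinarith
      have h22 : ‖w‖ ^ n * (π / 2 * ((1 - a) / a)) ≤ 100 / n := by
        calc ‖w‖ ^ n * (π / 2 * ((1 - a) / a)) ≤ (13 * a ^ n) * (π / 2 * ((1 - a) / a)) :=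
              mul_le_mul_of_nonneg_right hwn (by positivity)
          _ = (13 * (π / 2)) * (a ^ n * ((1 - a) / a)) := by ring
          _ ≤ (13 * (π / 2)) * (2 / n) := mul_le_mul_of_nonneg_left h21 (by positivity)
          _ ≤ 100 / n := by
              rw [mul_div_assoc', div_le_div_iff_of_pos_right hn0]
              nlinarith
      have h23 : ‖w‖ ^ n * -(π / 2 * ((1 - a) / a)) ≤ ‖w‖ ^ n * Real.cos (n * Complex.arg w) :=
        mul_le_mul_of_nonneg_left hcos (by positivity)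
      linarith

theorem strip_aux {n : ℕ} (hn : Even n) (hn0 : 0 < n) {z : ℂ} (h0 : 0 ≤ z.re) (h1 : z.re ≤ 1) :
    -(100 / (n : ℝ)) ≤ (Vn n z).re := by
  have hn2 : 2 ≤ n := by
    obtain ⟨k, hk⟩ := hn
    omega
  have hnr : (0 : ℝ) < n := by exact_mod_cast hn0
  have hnc : (n : ℂ) ≠ 0 := by exact_mod_cast hn0.ne'
  have hz : 1 + (π : ℂ) * Complex.I * (z - 1 / 2) / (n : ℂ) =
      ((1 - π * z.im / n : ℝ) : ℂ) + ((π * (z.re - 1 / 2) / n : ℝ) : ℂ) * Complex.I := by
    conv_lhs => rw [← Complex.re_add_im z]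
    push_cast
    field_simp
    linear_combination (2 * (π : ℂ) * z.im) * Complex.I_sq
  have hφ : |π * (z.re - 1 / 2) / n| ≤ π / (2 * n) := by
    rw [abs_div, abs_mul, abs_of_pos Real.pi_pos, abs_of_pos hnr, div_le_div_iff₀ hnr (by positivity)]
    have : |z.re - 1 / 2| ≤ 1 / 2 := by
      rw [abs_le]
      constructor <;> linarith
    have h3 := Real.pi_pos
    nlinarith [mul_pos h3 hnr]
  unfold Vn
  rw [hz]
  rcases le_or_gt 0 (1 - π * z.im / n) with h | h
  · exact re_pow_ge hn2 h hφ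
  · have h2 := re_pow_ge hn2 (a := -(1 - π * z.im / n)) (by linarith) (φ := -(π * (z.re - 1 / 2) / n))
      (by rwa [abs_neg])
    refine h2.trans (le_of_eq ?_)
    congr 1
    rw [← hn.neg_pow]
    congr 1
    push_cast
    ring

theorem strip : ∃ C0 : ℝ, 0 < C0 ∧ ∀ n : ℕ, Even n → 0 < n → ∃ C1 : ℝ, 0 ≤ C1 ∧ ∀ (ε : ℝ) (z : ℂ),
    0 ≤ ε → ε ≤ 1 → -ε ≤ z.re → z.re ≤ 1 + ε → -(C0 / n) - C1 * ε * (1 + ‖z‖) ^ n ≤ (Vn n z).re := by
  refine ⟨100, by norm_num, fun n hn hn0 => ⟨4 * 8 ^ n, by positivity, fun ε z h0 h1 h2 h3 => ?_⟩⟩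
  have hnr : (0 : ℝ) < n := by exact_mod_cast hn0
  have hnc : (n : ℂ) ≠ 0 := by exact_mod_cast hn0.ne'
  -- the projection
  set x' : ℝ := max 0 (min z.re 1) with hx'
  set z' : ℂ := (x' : ℂ) + (z.im : ℂ) * Complex.I with hz'
  have hre : z'.re = x' := by simp [hz']
  have hx0 : 0 ≤ x' := le_max_left _ _
  have hx1 : x' ≤ 1 := max_le (by norm_num) (min_le_right _ _)
  have hd : ‖z - z'‖ ≤ ε := by
    have e : z - z' = ((z.re - x' : ℝ) : ℂ) := by
      apply Complex.ext <;> simp [hz']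
    rw [e, Complex.norm_real, Real.norm_eq_abs, abs_le, hx']
    constructor
    · rcases le_total z.re 1 with h | h
      · rw [min_eq_left h]
        rcases le_total 0 z.re with h' | h'
        · rw [max_eq_right h']; linarith
        · rw [max_eq_left h']; linarith
      · rw [min_eq_right h, max_eq_right (by norm_num : (0 : ℝ) ≤ 1)]
        linarith
    · rcases le_total z.re 1 with h | h
      · rw [min_eq_left h]
        have := le_max_right 0 z.re
        linarith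
      · rw [min_eq_right h, max_eq_right (by norm_num : (0 : ℝ) ≤ 1)]
        linarith
  have hmain := strip_aux hn hn0 (z := z') (by rw [hre]; exact hx0) (by rw [hre]; exact hx1)
  obtain ⟨m, rfl⟩ : ∃ m, n = m + 1 := ⟨n - 1, by omega⟩
  have hpi := Real.pi_pos
  have hpi4 := Real.pi_lt_four
  have hn1 : (1 : ℝ) ≤ ((m + 1 : ℕ) : ℝ) := by exact_mod_cast hn0
  have hb : ∀ y : ℂ, ‖y‖ ≤ ‖z‖ + 1 →
      ‖1 + (π : ℂ) * Complex.I * (y - 1 / 2) / ((m + 1 : ℕ) : ℂ)‖ ≤ 8 * (1 + ‖z‖) := by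
    intro y hy
    refine (norm_add_le _ _).trans ?_
    rw [norm_one, norm_div, norm_mul, norm_mul, Complex.norm_I, Complex.norm_real, Real.norm_eq_abs,
      abs_of_pos hpi, Complex.norm_natCast, mul_one]
    have h5 : ‖y - 1 / 2‖ ≤ ‖z‖ + 3 / 2 := by
      refine (norm_sub_le _ _).trans ?_
      have : ‖(1 / 2 : ℂ)‖ = 1 / 2 := by norm_num
      rw [this]
      linarith
    have h6 : π * ‖y - 1 / 2‖ / ((m + 1 : ℕ) : ℝ) ≤ π * ‖y - 1 / 2‖ := by
      apply div_le_self (by positivity) hn1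
    have h7 : π * ‖y - 1 / 2‖ ≤ 4 * (‖z‖ + 3 / 2) :=
      mul_le_mul hpi4.le h5 (norm_nonneg _) (by norm_num)
    linarith [norm_nonneg z]
  have hz'n : ‖z'‖ ≤ ‖z‖ + 1 := by
    have h8 : ‖z'‖ ≤ ‖z‖ + ‖z - z'‖ := by
      have := norm_sub_le z (z - z')
      rwa [sub_sub_cancel] at this
    linarith
  have h9 := norm_pow_sub_pow_le (hb z (by linarith)) (hb z' hz'n) m
  have h10 : ‖(1 + (π : ℂ) * Complex.I * (z - 1 / 2) / ((m + 1 : ℕ) : ℂ)) -
      (1 + (π : ℂ) * Complex.I * (z' - 1 / 2) / ((m + 1 : ℕ) : ℂ))‖ ≤ 4 * ε / ((m + 1 : ℕ) : ℝ) := by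
    have e : (1 + (π : ℂ) * Complex.I * (z - 1 / 2) / ((m + 1 : ℕ) : ℂ)) -
      (1 + (π : ℂ) * Complex.I * (z' - 1 / 2) / ((m + 1 : ℕ) : ℂ)) =
      (π : ℂ) * Complex.I * (z - z') / ((m + 1 : ℕ) : ℂ) := by
      ring
    rw [e, norm_div, norm_mul, norm_mul, Complex.norm_I, Complex.norm_real, Real.norm_eq_abs,
      abs_of_pos hpi, Complex.norm_natCast, mul_one]
    refine div_le_div_of_nonneg_right ?_ hnr.le
    exact mul_le_mul hpi4.le hd (norm_nonneg _) (by norm_num)
  have h11 : ‖Vn (m + 1) z - Vn (m + 1) z'‖ ≤ 4 * 8 ^ (m + 1) * ε * (1 + ‖z‖) ^ (m + 1) := by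
    unfold Vn
    refine h9.trans ?_
    have h12 : ((m : ℝ) + 1) * (8 * (1 + ‖z‖)) ^ m *
        ‖(1 + (π : ℂ) * Complex.I * (z - 1 / 2) / ((m + 1 : ℕ) : ℂ)) -
      (1 + (π : ℂ) * Complex.I * (z' - 1 / 2) / ((m + 1 : ℕ) : ℂ))‖ ≤
        ((m : ℝ) + 1) * (8 * (1 + ‖z‖)) ^ m * (4 * ε / ((m + 1 : ℕ) : ℝ)) :=
      mul_le_mul_of_nonneg_left h10 (by positivity)
    refine h12.trans ?_
    have h13 : ((m : ℝ) + 1) * (8 * (1 + ‖z‖)) ^ m * (4 * ε / ((m + 1 : ℕ) : ℝ)) =
        4 * 8 ^ m * ε * (1 + ‖z‖) ^ m := by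
      push_cast
      rw [mul_pow]
      field_simp
    rw [h13]
    have h14 : (8 : ℝ) ^ m ≤ 8 ^ (m + 1) := pow_le_pow_right₀ (by norm_num) (Nat.le_succ m)
    have h15 : (1 + ‖z‖) ^ m ≤ (1 + ‖z‖) ^ (m + 1) :=
      pow_le_pow_right₀ (by linarith [norm_nonneg z]) (Nat.le_succ m)
    have h16 : 4 * (8 : ℝ) ^ m * ε ≤ 4 * 8 ^ (m + 1) * ε := by nlinarith
    exact mul_le_mul h16 h15 (by positivity) (by positivity)
  have h20 := (abs_le.1 ((Complex.abs_re_le_norm (Vn (m + 1) z - Vn (m + 1) z')).trans h11)).1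
  rw [Complex.sub_re] at h20
  linarith

end Pool.Agent.H5.HF
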